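import Pool.Agent.Run7.h982.CF.Iface

/-!
# MP_c42e77_an, Q2: assembly
-/

set_option autoImplicit false

open Set Filter Topology

namespace Pool.Agent.Run7.h982.CF

open Pool.Agent.Results.MP_c42e77_an.ContinuumLevel

theorem bi_nonneg (u : Bool) : 0 ≤ bi u := by cases u <;> simp [bi]
theorem bi_le (u : Bool) : bi u ≤ 1 := by cases u <;> simp [bi]
theorem bi_inj {u v : Bool} (h : bi u = bi v) : u = v := by
  cases u <;> cases v <;> simp_all [bi]

theorem AA_succ (ε : ℕ → Bool) (j : ℕ) : AA ε (j + 1) = AA ε j + bi (ε (2 * j)) := by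
  unfold AA
  rw [Finset.sum_range_succ]

theorem AA_nonneg (ε : ℕ → Bool) (j : ℕ) : 0 ≤ AA ε j := Finset.sum_nonneg fun _ _ => bi_nonneg _

theorem AA_le (ε : ℕ → Bool) (j : ℕ) : AA ε j ≤ j := by
  induction j with
  | zero => simp [AA]
  | succ j ih => rw [AA_succ]; push_cast; have := bi_le (ε (2 * j)); omega

/-- the states -/
def st (ε : ℕ → Bool) (j : ℕ) : Bool := match j with
  | 0 => false
  | j + 1 => ε (2 * j + 1)

theorem cc_eq (ε : ℕ → Bool) (j : ℕ) : cc ε j = bi (st ε j) + AA ε j := by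
  cases j with
  | zero => simp [cc, st, AA, bi]
  | succ j => rfl

theorem st_mem (ε : ℕ → Bool) : st ε ∈ PP (cc ε) := by
  refine ⟨rfl, fun j => ?_⟩
  unfold ok
  rw [cc_eq ε (j + 1), cc_eq ε j, AA_succ]
  have h : bi (st ε (j + 1)) + (AA ε j + bi (ε (2 * j))) - (bi (st ε j) + AA ε j) -
      bi (st ε (j + 1)) + bi (st ε j) = bi (ε (2 * j)) := by ring
  rw [h]
  cases ε (2 * j) <;> simp [bi]

theorem st_inj {ε ε' : ℕ → Bool} (hc : cc ε = cc ε') (hs : st ε = st ε') : ε = ε' := by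
  have hA : ∀ j, AA ε j = AA ε' j := by
    intro j
    have h1 := congrFun hc j
    rw [cc_eq, cc_eq, hs] at h1
    omega
  funext n
  rcases Nat.even_or_odd' n with ⟨k, rfl | rfl⟩
  · have h1 := hA (k + 1)
    rw [AA_succ, AA_succ, hA k] at h1
    exact bi_inj (by omega)
  · exact congrFun hs (k + 1)

open Classical in
/-- the point of the fibre belonging to a path -/
noncomputable def un (c : ℕ → ℤ) (e : ℕ → Bool) (n : ℕ) : Bool :=
  if n % 2 = 0 then decide (c (n / 2 + 1) - c (n / 2) - bi (e (n / 2 + 1)) + bi (e (n / 2)) = 1)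
  else e (n / 2 + 1)

theorem un_even (c : ℕ → ℤ) (e : ℕ → Bool) (k : ℕ) :
    un c e (2 * k) = decide (c (k + 1) - c k - bi (e (k + 1)) + bi (e k) = 1) := by
  unfold un
  have h1 : 2 * k % 2 = 0 := by omega
  have h2 : 2 * k / 2 = k := by omega
  rw [if_pos h1, h2]

theorem un_odd (c : ℕ → ℤ) (e : ℕ → Bool) (k : ℕ) : un c e (2 * k + 1) = e (k + 1) := by
  unfold un
  have h1 : ¬ (2 * k + 1) % 2 = 0 := by omega
  have h2 : (2 * k + 1) / 2 = k := by omega
  rw [if_neg h1, h2]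

theorem st_un {c : ℕ → ℤ} {e : ℕ → Bool} (he : e ∈ PP c) : st (un c e) = e := by
  funext j
  cases j with
  | zero => exact he.1.symm
  | succ j => exact un_odd c e j

theorem cc_un {c : ℕ → ℤ} (h0 : c 0 = 0) {e : ℕ → Bool} (he : e ∈ PP c) : cc (un c e) = c := by
  have hA : ∀ j, AA (un c e) j = c j - bi (e j) := by
    intro j
    induction j with
    | zero => simp [AA, h0, he.1, bi]
    | succ j ih =>
      rw [AA_succ, ih, un_even]
      rcases he.2 j with h | h
      · have h2 : ¬ (c (j + 1) - c j - bi (e (j + 1)) + bi (e j) = 1) := by omega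
        rw [decide_eq_false h2]
        have : bi false = 0 := rfl
        omega
      · rw [decide_eq_true h]
        have : bi true = 1 := rfl
        omega
  funext j
  rw [cc_eq, st_un he, hA]
  ring

/-- the fibre is in bijection with the set of paths -/
noncomputable def fibEquiv (ε₀ : ℕ → Bool) : {ε : ℕ → Bool // cc ε = cc ε₀} ≃ PP (cc ε₀) where
  toFun ε := ⟨st ε.1, by
    have h1 := st_mem ε.1
    rw [ε.2] at h1
    exact h1⟩
  invFun e := ⟨un (cc ε₀) e.1, cc_un (c := cc ε₀) rfl e.2⟩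
  left_inv ε := by
    apply Subtype.ext
    have h1 : st ε.1 ∈ PP (cc ε₀) := by
      have h1 := st_mem ε.1
      rw [ε.2] at h1
      exact h1
    exact st_inj ((cc_un (c := cc ε₀) rfl h1).trans ε.2.symm) (st_un h1)
  right_inv e := Subtype.ext (st_un e.2)

theorem fib_iff (hSUM : S_SUM) (hDIG : S_DIG) (ε ε₀ : ℕ → Bool) :
    subsum xs ε = subsum xs ε₀ ↔ cc ε = cc ε₀ := by
  have hb : ∀ ε : ℕ → Bool, ∀ j : ℕ, 0 ≤ cc ε (j + 1) ∧ cc ε (j + 1) ≤ j + 2 := by
    intro ε j
    have h1 := bi_nonneg (ε (2 * j + 1))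
    have h2 := bi_le (ε (2 * j + 1))
    have h3 := AA_nonneg ε (j + 1)
    have h4 := AA_le ε (j + 1)
    push_cast at h4
    have h5 : cc ε (j + 1) = bi (ε (2 * j + 1)) + AA ε (j + 1) := rfl
    omega
  constructor
  · intro h
    rw [(hSUM.2.2.2 ε).2, (hSUM.2.2.2 ε₀).2] at h
    have h1 := hDIG (fun j => cc ε (j + 1)) (fun j => cc ε₀ (j + 1)) (hb ε) (hb ε₀) h
    funext j
    cases j with
    | zero => rfl
    | succ j => exact congrFun h1 j
  · intro h
    rw [(hSUM.2.2.2 ε).2, (hSUM.2.2.2 ε₀).2, h]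

theorem card_eq (hSUM : S_SUM) (hDIG : S_DIG) (ε₀ : ℕ → Bool) :
    cardFun xs (subsum xs ε₀) = Cardinal.mk (PP (cc ε₀)) := by
  unfold cardFun
  refine Cardinal.mk_congr ((Equiv.subtypeEquivRight fun ε => ?_).trans (fibEquiv ε₀))
  exact fib_iff hSUM hDIG ε ε₀

theorem card_iff (P : Set (ℕ → Bool)) : Cardinal.mk P = Cardinal.aleph0 ↔ P.Infinite ∧ P.Countable := by
  constructor
  · intro h
    refine ⟨?_, ?_⟩
    · rw [← Set.infinite_coe_iff, Cardinal.infinite_iff, h]
    · rw [← Set.countable_coe_iff, ← Cardinal.mk_le_aleph0_iff, h]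
  · rintro ⟨h1, h2⟩
    refine le_antisymm ?_ ?_
    · rw [Cardinal.mk_le_aleph0_iff, Set.countable_coe_iff]
      exact h2
    · rw [← Cardinal.infinite_iff, Set.infinite_coe_iff]
      exact h1

theorem countable_level (hSUM : S_SUM) (hDIG : S_DIG) (hCOMB : S_COMB) (hCNT : S_CNT) :
    (levelSet xs Cardinal.aleph0).Countable := by
  refine (hCNT.image fun c => ∑' j, (c (j + 1) : ℝ) * b j).mono ?_
  intro t ht
  have h0 : cardFun xs t = Cardinal.aleph0 := ht
  have hne : Nonempty {ε : ℕ → Bool // subsum xs ε = t} := by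
    rw [← Cardinal.mk_ne_zero_iff]
    unfold cardFun at h0
    rw [h0]
    exact Cardinal.aleph0_ne_zero
  obtain ⟨ε₀, rfl⟩ := hne
  rw [card_eq hSUM hDIG, card_iff] at h0
  exact ⟨cc ε₀, hCOMB _ h0.1 h0.2, ((hSUM.2.2.2 ε₀).2).symm⟩

theorem nonempty_level (hSUM : S_SUM) (hDIG : S_DIG) (hBASE : S_BASE) :
    (levelSet xs Cardinal.aleph0).Nonempty := by
  let ε₁ : ℕ → Bool := fun n => decide (n = 0)
  refine ⟨subsum xs ε₁, ?_⟩
  show cardFun xs (subsum xs ε₁) = Cardinal.aleph0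
  rw [card_eq hSUM hDIG, card_iff]
  have hc : cc ε₁ = fun j => if j = 0 then 0 else 1 := by
    have hA : ∀ j, AA ε₁ (j + 1) = 1 := by
      intro j
      induction j with
      | zero => rw [AA_succ]; simp [AA, ε₁, bi]
      | succ j ih =>
        rw [AA_succ, ih]
        have : ε₁ (2 * (j + 1)) = false := by
          simp [ε₁]
        rw [this]
        rfl
    funext j
    cases j with
    | zero => rfl
    | succ j =>
      rw [cc_eq, hA]
      have : st ε₁ (j + 1) = false := by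
        simp [st, ε₁]
      rw [this]
      simp [bi]
  rw [hc]
  exact hBASE

theorem unc : ¬ Countable (ℕ → Bool) := by
  intro h2
  have h3 : Cardinal.mk (ℕ → Bool) ≤ Cardinal.aleph0 := Cardinal.mk_le_aleph0_iff.2 h2
  have h4 : Cardinal.mk (ℕ → Bool) = Cardinal.continuum := by
    rw [← Cardinal.power_def, Cardinal.mk_bool, Cardinal.mk_nat, Cardinal.two_power_aleph0]
  rw [h4] at h3
  exact absurd Cardinal.aleph0_lt_continuum (not_lt.2 h3)

theorem final (hSUM : S_SUM) (hDIG : S_DIG) (hCOMB : S_COMB) (hCNT : S_CNT) (hBASE : S_BASE) :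
    (∀ n, 0 < xs n) ∧ Summable xs ∧ (∀ n, xs (n + 1) < xs n) ∧
      (levelSet xs Cardinal.aleph0).Nonempty ∧ (levelSet xs Cardinal.aleph0).Countable ∧
      ¬ ∃ C ⊆ levelSet xs Cardinal.aleph0, Nonempty (C ≃ₜ cantorSet) := by
  have hc := countable_level hSUM hDIG hCOMB hCNT
  refine ⟨hSUM.1, hSUM.2.1, hSUM.2.2.1, nonempty_level hSUM hDIG hBASE, hc, ?_⟩
  rintro ⟨C, hC, ⟨h⟩⟩
  have h1 : Countable C := (hc.mono hC).to_subtype
  have h2 : Countable (ℕ → Bool) :=
    (h.toEquiv.trans cantorSetEquivNatToBool).symm.injective.countable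
  exact unc h2

end Pool.Agent.Run7.h982.CF
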