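import Pool.Agent.Results.MP_c42e77_an.ContinuumLevel

/-!
# MP_c42e77_an, Q2: a level set `L_ω(x)` which is countable and nonempty

Negative answer to Q2. Let `b_k = 1/(k+4)!`, `a_k = ∑_{j ≥ k} b_j` and
`x = (a_0, b_0, a_1, b_1, ...)`. For `ε` put `α_k = ε(2k)`, `β_k = ε(2k+1)`, `A_j = ∑_{k ≤ j} α_k`,
`c_j = β_j + A_j`. Then `f(ε) = ∑ c_j b_j` and this determines the `c_j` (`c_j ≤ j + 2` and
`∑_{i > j} (i + 2) b_i < b_j`). So fibres are the sets of all `β` for which
`A_j = c_j - β_j` has increments in `{0, 1}`: paths in a chain with two states. If the increments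
of `c` are not eventually `0` and not eventually `1`, an infinite fibre has no isolated point, so it
is uncountable. So `L_ω(x)` is contained in the countable set of the values with increments of
`c` eventually `0` or eventually `1`; and `a_0 ∈ L_ω(x)` as `a_0 = b_0 + ... + b_{k-1} + a_k`.

Pieces: `S_SUM`, `S_DIG`, `S_COMB`, `S_CNT`, `S_BASE`.
-/

set_option autoImplicit false

open Set Filter Topology

namespace Pool.Agent.Run7.h982.CF

open Pool.Agent.Results.MP_c42e77_an.ContinuumLevel

/-- `b_k = 1/(k+4)!`. -/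
noncomputable def b (k : ℕ) : ℝ := 1 / (Nat.factorial (k + 4) : ℝ)

/-- `a_k = ∑_{j ≥ k} b_j`. -/
noncomputable def a (k : ℕ) : ℝ := ∑' i, b (k + i)

/-- `x = (a_0, b_0, a_1, b_1, ...)`. -/
noncomputable def xs (n : ℕ) : ℝ := if n % 2 = 0 then a (n / 2) else b (n / 2)

/-- `0` or `1`. -/
def bi (u : Bool) : ℤ := if u then 1 else 0

/-- `A_j = ∑_{k < j} α_k`, `α_k = ε(2k)`. -/
def AA (ε : ℕ → Bool) (j : ℕ) : ℤ := ∑ k ∈ Finset.range j, bi (ε (2 * k))

/-- The digits: `cc ε 0 = 0`, `cc ε (j+1) = β_j + α_0 + ... + α_j`. -/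
def cc (ε : ℕ → Bool) (j : ℕ) : ℤ := match j with
  | 0 => 0
  | j + 1 => bi (ε (2 * j + 1)) + AA ε (j + 1)

/-- The condition on a step of size `Δ` of the digits and two consecutive states: the increment
of `A = c - β` is `0` or `1`. -/
def ok (Δ : ℤ) (u v : Bool) : Prop := Δ - bi v + bi u = 0 ∨ Δ - bi v + bi u = 1

/-- The set of paths belonging to a sequence of digits. -/
def PP (c : ℕ → ℤ) : Set (ℕ → Bool) :=
  {e | e 0 = false ∧ ∀ j, ok (c (j + 1) - c j) (e j) (e (j + 1))}

/-- The increments are eventually `0` or eventually `1`. -/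
def Ev (c : ℕ → ℤ) : Prop :=
  ∃ J, (∀ j, J ≤ j → c (j + 1) = c j) ∨ (∀ j, J ≤ j → c (j + 1) = c j + 1)

/-- SUM: `xs` is positive and summable, and `f(ε) = ∑ c_j b_j`.
(`a j = b j + a (j + 1)`; by induction
`∑_{n < 2N} ε_n x_n = ∑_{j < N} c_{j+1} b_j + A_N a_N`, and `A_N a_N ≤ N a_N → 0`; or by exchanging
the sums. `∑ (j + 2) b_j` converges as `(j + 2) b_j ≤ 1/(j+3)! - 1/(j+4)!`.) -/
def S_SUM : Prop :=
  (∀ n, 0 < xs n) ∧ Summable xs ∧ (∀ n, xs (n + 1) < xs n) ∧
    ∀ ε : ℕ → Bool, Summable (fun j => (cc ε (j + 1) : ℝ) * b j) ∧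
      subsum xs ε = ∑' j, (cc ε (j + 1) : ℝ) * b j

/-- DIG: the value determines the digits. (Let `j` be the first index where `c`, `c'` differ:
`b_j ≤ |c_j - c'_j| b_j ≤ ∑_{i > j} (i + 2) b_i < b_j`, as
`(i + 2) b_i = (1/(i+3)! - 1/(i+4)!) - b_i` and `∑_{i > j} (1/(i+3)! - 1/(i+4)!) = 1/(j+4)! = b_j`.) -/
def S_DIG : Prop :=
  ∀ c c' : ℕ → ℤ, (∀ j, 0 ≤ c j ∧ c j ≤ j + 2) → (∀ j, 0 ≤ c' j ∧ c' j ≤ j + 2) →
    ∑' j, (c j : ℝ) * b j = ∑' j, (c' j : ℝ) * b j → c = c'

/-- COMB: an infinite countable set of paths forces the increments of the digits to be eventually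
constant `0` or `1`. Assume not. `PP c` is closed in `ℕ → Bool`. It has no isolated point:
let `e ∈ PP c` and `N` be given. (I) If there are arbitrarily large `j` with
`Δ_j = c (j+1) - c j ∉ {0, 1}`, take such a `j ≥ N`; then `e (j + 1)` is the same for all elements
of `PP c` (`Δ_j = 2`: `e j = false, e (j+1) = true`; `Δ_j = -1`: the other way round); as `PP c` is
infinite it has two different elements `d, d'` which agree up to `j + 1`; `e` up to `j + 1` continued
with `d` or with `d'` is in `PP c`, and one of the two is not `e`. (II) If `Δ_j ∈ {0, 1}` for all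
`j ≥ J`: there is `j ≥ N, J` with (`e j = false` and `Δ_j = 1`) or (`e j = true` and `Δ_j = 0`), as
otherwise `e` and `Δ` are eventually constant; `e` up to `j`, followed by the constant
`! e (j + 1)`, is in `PP c`. So `PP c` is perfect and nonempty, and
`Perfect.exists_nat_bool_injection` contradicts countability. -/
def S_COMB : Prop := ∀ c : ℕ → ℤ, (PP c).Infinite → (PP c).Countable → Ev c

/-- CNT: there are countably many such sequences of digits. (Union over `J` and the two cases; the
sequence is determined by its values on `0, ..., J`.) -/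
def S_CNT : Prop := {c : ℕ → ℤ | Ev c}.Countable

/-- BASE: `PP c` for the digits `0, 1, 1, 1, ...` is infinite and countable: its elements are
`false, true, ..., true, false, false, ...` and `false, true, true, ...`. (`ok 1 false v` for all `v`;
`ok 0 true v` for all `v`; `ok 0 false v` iff `v = false`.) -/
def S_BASE : Prop :=
  (PP (fun j => if j = 0 then 0 else 1)).Infinite ∧ (PP (fun j => if j = 0 then 0 else 1)).Countable

end Pool.Agent.Run7.h982.CF
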